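import Pool.Agent.Helper92.TN.GoalsW

/-!
# Project TN (MP_a41896_nt), packet NDGP: the points `2^e x ± x0` are not `0`
-/

set_option autoImplicit false

namespace Pool.Agent.Helper95.TN.NDGP

open MvPolynomial WeierstrassCurve
open Pool.Agent.Helper29.BL Pool.Agent.Helper92.Ru Pool.Agent.Helper42.SG
open Pool.Agent.Helper60.T3 (WL IP)
open Pool.Agent.Helper92.TN (acl NotFlat ACLA ACLB ACLP TD)

theorem ps_sq {F : Type} [Field F] (W : Affine F) (P : W.Point) (hP : P ≠ 0) :
    ps P ^ 2 = Bf W (xc P) := by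
  cases P with
  | zero => exact absurd rfl hP
  | some x y h =>
    have h1 := h.1
    rw [Affine.equation_iff] at h1
    simp only [ps, xc, Bf, WeierstrassCurve.b₂, WeierstrassCurve.b₄, WeierstrassCurve.b₆]
    linear_combination 4 * h1

section acl

variable {K Ω : Type} [Field K] [Field Ω] [Algebra K Ω]

theorem acl_le (hA : ACLA) (S T : Set Ω) (h : T ⊆ (acl K S : Set Ω)) : acl K T ≤ acl K S := by
  have h1 := (hA K Ω T (acl K S : Set Ω)).2.2.1 h
  have h2 := (hA K Ω S (∅ : Set Ω)).2.2.2.1
  rw [Set.union_empty, Set.union_empty] at h2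
  rw [h2] at h1
  exact h1

theorem root_mem (hA : ACLA) (hΩ : IsAlgClosed Ω) (S : Set Ω) (z : Ω)
    (p : Polynomial (acl K S)) (hp : p ≠ 0) (hz : Polynomial.aeval z p = 0) : z ∈ acl K S := by
  rcases (hA K Ω S S).2.2.2.2.2.2 hΩ z with h | h
  · exact h
  · exact absurd ⟨p, hp, hz⟩ h

/-- the polynomial in one variable -/
noncomputable def Phi {σ : Type} [DecidableEq σ] (F : IntermediateField K Ω) (c : σ) (X : σ → Ω)
    (hX : ∀ b, b ≠ c → X b ∈ F) : MvPolynomial σ K →ₐ[K] Polynomial F :=
  aeval fun b => if h : b = c then Polynomial.X else Polynomial.C ⟨X b, hX b h⟩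

theorem Phi_eval {σ : Type} [DecidableEq σ] (F : IntermediateField K Ω) (c : σ) (X : σ → Ω)
    (hX : ∀ b, b ≠ c → X b ∈ F) (g : MvPolynomial σ K) :
    Polynomial.aeval (X c) (Phi F c X hX g) = aeval X g := by
  induction g using MvPolynomial.induction_on with
  | C a =>
    rw [← MvPolynomial.algebraMap_eq, AlgHom.commutes, AlgHom.commutes,
      IsScalarTower.algebraMap_apply K F (Polynomial F), Polynomial.algebraMap_eq,
      Polynomial.aeval_C, ← IsScalarTower.algebraMap_apply]
  | add p q hp hq => rw [map_add, map_add, map_add, hp, hq]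
  | mul_X p i hp =>
    rw [map_mul, map_mul, map_mul, hp, aeval_X]
    congr 1
    unfold Phi
    rw [aeval_X]
    by_cases h : i = c
    · rw [dif_pos h, Polynomial.aeval_X, h]
    · rw [dif_neg h, Polynomial.aeval_C]
      rfl

theorem Phi_deriv {σ : Type} [DecidableEq σ] (F : IntermediateField K Ω) (c : σ) (X : σ → Ω)
    (hX : ∀ b, b ≠ c → X b ∈ F) (g : MvPolynomial σ K) :
    Polynomial.aeval (X c) (Polynomial.derivative (Phi F c X hX g)) = aeval X (pderiv c g) := by
  induction g using MvPolynomial.induction_on with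
  | C a =>
    rw [pderiv_C, map_zero, ← MvPolynomial.algebraMap_eq, AlgHom.commutes,
      IsScalarTower.algebraMap_apply K F (Polynomial F), Polynomial.algebraMap_eq,
      Polynomial.derivative_C, map_zero]
  | add p q hp hq => rw [map_add, map_add, map_add, map_add, map_add, hp, hq]
  | mul_X p i hp =>
    rw [map_mul, Polynomial.derivative_mul, map_add, map_mul, map_mul, hp, Phi_eval, pderiv_mul,
      map_add, map_mul, map_mul, aeval_X, pderiv_X]
    have h1 : Phi F c X hX (MvPolynomial.X i) =
        if h : i = c then Polynomial.X else Polynomial.C ⟨X i, hX i h⟩ := by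
      unfold Phi
      rw [aeval_X]
    rw [h1]
    by_cases h : i = c
    · subst h
      rw [dif_pos rfl, Polynomial.derivative_X, map_one, Pi.single_eq_same, map_one, Phi_eval]
    · rw [dif_neg h, Polynomial.derivative_C, map_zero, Pi.single_eq_of_ne h, map_zero,
        Phi_eval]

/-- the last coordinate of a point of a hypersurface -/
theorem rel_mem (hA : ACLA) (hB : ACLB) {σ : Type} [Fintype σ] (a : σ) (X : σ → Ω)
    (g : MvPolynomial σ K) (hg : g ≠ 0) (h0 : aeval X g = 0)
    (hi : AlgebraicIndependent K (fun b : {b : σ // b ≠ a} => X b)) :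
    X a ∈ acl K (X '' {b | b ≠ a}) := by
  classical
  by_contra hcon
  apply hg
  have hind : AlgebraicIndependent K X := by
    rw [(hB K Ω).1 σ X]
    intro i hmem
    by_cases hia : i = a
    · rw [hia] at hmem
      exact hcon hmem
    · set T : Set Ω := X '' {b | b ≠ i ∧ b ≠ a} with hT
      have e1 : X '' {b | b ≠ i} = insert (X a) T := by
        rw [hT, ← Set.image_insert_eq]
        congr 1
        ext b
        simp only [Set.mem_ofPred_eq, Set.mem_insert_iff]
        constructor
        · intro hb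
          by_cases hba : b = a
          · exact Or.inl hba
          · exact Or.inr ⟨hb, hba⟩
        · rintro (hb | hb)
          · rw [hb]
            exact fun h => hia h.symm
          · exact hb.1
      have e2 : X '' {b | b ≠ a} = insert (X i) T := by
        rw [hT, ← Set.image_insert_eq]
        congr 1
        ext b
        simp only [Set.mem_ofPred_eq, Set.mem_insert_iff]
        constructor
        · intro hb
          by_cases hbi : b = i
          · exact Or.inl hbi
          · exact Or.inr ⟨hbi, hb⟩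
        · rintro (hb | hb)
          · rw [hb]
            exact hia
          · exact hb.2
      have h1 := ((hB K Ω).1 {b : σ // b ≠ a} (fun b => X b)).1 hi ⟨i, hia⟩
      have e3 : (fun b : {b : σ // b ≠ a} => X b) '' {j | j ≠ ⟨i, hia⟩} = T := by
        rw [hT]
        ext z
        simp only [Set.mem_image, Set.mem_ofPred_eq]
        constructor
        · rintro ⟨⟨b, hb⟩, h2, h3⟩
          exact ⟨b, ⟨fun h4 => h2 (Subtype.ext h4), hb⟩, h3⟩
        · rintro ⟨b, ⟨h2, h3⟩, h4⟩
          exact ⟨⟨b, h3⟩, fun h5 => h2 (congrArg Subtype.val h5), h4⟩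
      rw [e3] at h1
      rw [e1] at hmem
      apply hcon
      rw [e2]
      exact (hA K Ω T T).2.2.2.2.1 _ _ hmem h1
  exact (injective_iff_map_eq_zero _).1 hind g h0

end acl

theorem t (hA : ACLA) (hB : ACLB) (hP : ACLP) : Pool.Agent.Helper92.TN.NDGP := by
  classical
  intro K _ _ σ _ _ W hW n a g g0 Ω _ hΩ _ _ x x0 hT hNF j i e
  set fam : (Fin n × {i : σ // i ≠ a}) ⊕ {i : σ // i ≠ a} → Ω := Sum.elim
    (fun h : Fin n × {i : σ // i ≠ a} => xc (x h.1 h.2)) (fun i : {i : σ // i ≠ a} => xc (x0 i))
    with hfam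
  have hind : AlgebraicIndependent K fam := hT.ind
  have hind1 := ((hB K Ω).1 _ fam).1 hind
  -- the coordinates of `x0`
  have hX0 : ∀ b, xc (x0 b) ∈ acl K (Set.range fun b : {b : σ // b ≠ a} => xc (x0 b)) := by
    intro b
    by_cases hb : b = a
    · have h1 := rel_mem hA hB a (fun i => xc (x0 i)) g0 hT.g0ne hT.on0
        (hind.comp Sum.inr Sum.inr_injective)
      have h2 : (fun i => xc (x0 i)) '' {b | b ≠ a} =
          Set.range fun b : {b : σ // b ≠ a} => xc (x0 b) := by
        ext z
        constructor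
        · rintro ⟨b, hb, rfl⟩
          exact ⟨⟨b, hb⟩, rfl⟩
        · rintro ⟨⟨b, hb⟩, rfl⟩
          exact ⟨b, hb, rfl⟩
      rw [h2] at h1
      rw [hb]
      exact h1
    · exact (hA K Ω _ ∅).2.1 ⟨⟨b, hb⟩, rfl⟩
  have hA0 : acl K (Set.range fun b => xc (x0 b)) ≤
      acl K (Set.range fun b : {b : σ // b ≠ a} => xc (x0 b)) := by
    apply acl_le hA
    rintro _ ⟨b, rfl⟩
    exact hX0 b
  have hA1 : ∀ k : Fin n × {i : σ // i ≠ a},
      acl K (Set.range fun b => xc (x0 b)) ≤ acl K (fam '' {l | l ≠ Sum.inl k}) := by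
    intro k
    refine hA0.trans ((hA K Ω _ _).2.2.1 ?_)
    rintro _ ⟨b, rfl⟩
    exact ⟨Sum.inr b, fun h => by simp at h, rfl⟩
  -- the claim
  have claim : xc (x j i) ∉ acl K (Set.range fun b => xc (x0 b)) := by
    intro hmem
    by_cases hi : i = a
    · subst hi
      obtain ⟨c, hc⟩ : ∃ c : σ, c ≠ i := by
        apply Fintype.exists_ne_of_one_lt_card
        rw [hT.card]
        have := j.pos
        omega
      have hder : aeval (fun b => xc (x j b)) (pderiv c (g j)) ≠ 0 := by
        intro h0
        have : IsAlgClosed (acl K (∅ : Set Ω)) := (hA K Ω ∅ ∅).2.2.2.2.2.1 hΩ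
        have h1 := hNF j (acl K (∅ : Set Ω)) Ω (fun b => xc (x j b)) (fun b => ps (x j b))
          (fun b => ps_sq _ _ (hT.nz j b)) (hT.on j)
          ((hB K Ω).2.2.2 _ _ (hind.comp (fun b => Sum.inl (j, b))
            (fun b b' hbb => by simpa using hbb)))
          (Pi.single c 1) (by
            refine Finset.sum_eq_zero fun b _ => ?_
            by_cases hb : b = c
            · rw [hb, h0, mul_zero, mul_zero]
            · rw [Pi.single_eq_of_ne hb, map_zero, zero_mul])
        have h2 := congrFun h1 c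
        rw [Pi.single_eq_same, Pi.zero_apply] at h2
        exact one_ne_zero h2
      have hXb : ∀ b, b ≠ c → xc (x j b) ∈ acl K (fam '' {l | l ≠ Sum.inl (j, ⟨c, hc⟩)}) := by
        intro b hb
        by_cases hba : b = i
        · rw [hba]
          exact hA1 _ hmem
        · refine (hA K Ω _ ∅).2.1 ⟨Sum.inl (j, ⟨b, hba⟩), ?_, rfl⟩
          intro h
          apply hb
          simpa using h
      have h3 : xc (x j c) ∈ acl K (fam '' {l | l ≠ Sum.inl (j, ⟨c, hc⟩)}) := by
        refine root_mem hA hΩ _ _ (Phi _ c (fun b => xc (x j b)) hXb (g j)) ?_ ?_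
        · intro h4
          apply hder
          rw [← Phi_deriv _ c (fun b => xc (x j b)) hXb (g j), h4, Polynomial.derivative_zero,
            map_zero]
        · exact (Phi_eval _ c (fun b => xc (x j b)) hXb (g j)).trans (hT.on j)
      exact hind1 (Sum.inl (j, ⟨c, hc⟩)) h3
    · exact hind1 (Sum.inl (j, ⟨i, hi⟩)) (hA1 _ hmem)
  -- the points
  have := hW i
  have hx0 : IP (acl K (Set.range fun b => xc (x0 b)) : Set Ω) (x0 i) :=
    (hP K Ω (W i) _ (x0 i) (x0 i) 0).1 ((hA K Ω _ ∅).2.1 ⟨i, rfl⟩)
  have hx0' : IP (acl K (Set.range fun b => xc (x0 b)) : Set Ω) (-x0 i) := by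
    have h1 := ((hP K Ω (W i) (Set.range fun b => xc (x0 b)) 0 (x0 i) 0).2.2 (Or.inl rfl) hx0).2.1
    rwa [zero_sub] at h1
  have fin : ¬ IP (acl K (Set.range fun b => xc (x0 b)) : Set Ω) ((2 ^ e) • x j i) := by
    intro h
    rcases (hP K Ω (W i) _ (x j i) (x j i) e).2.1 h with h1 | h1
    · exact hT.nz j i h1
    · exact claim h1.1
  constructor
  · intro h
    apply fin
    rw [eq_neg_of_add_eq_zero_left h]
    exact hx0'
  · intro h
    apply fin
    rw [sub_eq_zero.1 h]
    exact hx0

end Pool.Agent.Helper95.TN.NDGP
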